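import Pool.Agent.Lib.MP_0775d3_lc.Kron.Final

/-! Matrices invariant under a finite abelian group with few orbits, over an arbitrary field, have
rank at most `n ^ (1 - γ)` up to `n ^ δ` changes in each row and each column. This contains group
matrices of abelian groups and (multilevel) Toeplitz matrices. -/

namespace MP0775d3.Old.AbelianPower

open MP0775d3.Kron

theorem result (δ : ℝ) (hδ : 0 < δ) : ∃ γ : ℝ, 0 < γ ∧ ∃ n₀ : ℕ, ∀ n : ℕ, n₀ ≤ n →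
    ∀ (F : Type) [Field F],
    (∀ (A X : Type) [CommGroup A] [Finite A] [Finite X] [MulAction A X],
      (Nat.card (MulAction.orbitRel.Quotient A X) : ℝ) ≤ (n : ℝ) ^ (δ / 2) →
      (Nat.card A * Nat.card (MulAction.orbitRel.Quotient A X) : ℝ) ≤ (n : ℝ) ^ (1 + γ) →
      ∀ K : X → X → F, (∀ (g : A) x y, K (g • x) (g • y) = K x y) →
      ∀ a b : Fin n → X, Function.Injective a → Function.Injective b →
        Dec (Matrix.of fun i j => K (a i) (b j)) ((n : ℝ) ^ (1 - γ)) ((n : ℝ) ^ δ)) ∧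
    (∀ (Γ : Type) [Group Γ] [Finite Γ] (A : Subgroup Γ), (∀ g ∈ A, ∀ h ∈ A, g * h = h * g) →
      (A.index : ℝ) ≤ (n : ℝ) ^ (δ / 2) → (Nat.card Γ : ℝ) ≤ (n : ℝ) ^ (1 + γ) →
      ∀ a b : Fin n → Γ, Function.Injective a → Function.Injective b → ∀ f : Γ → F,
        Dec (Matrix.of fun i j => f (a i * (b j)⁻¹)) ((n : ℝ) ^ (1 - γ)) ((n : ℝ) ^ δ)) ∧
    (∀ (k : ℕ) (N : Fin k → ℕ), ∏ l, 2 * (N l : ℝ) ≤ (n : ℝ) ^ (1 + γ) →
      ∀ a b : Fin n → Fin k → ℤ, Function.Injective a → Function.Injective b →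
      (∀ i l, 0 ≤ a i l ∧ a i l < N l) → (∀ i l, 0 ≤ b i l ∧ b i l < N l) →
      ∀ t : (Fin k → ℤ) → F,
        Dec (Matrix.of fun i j => t (a i - b j)) ((n : ℝ) ^ (1 - γ)) ((n : ℝ) ^ δ)) := by
  obtain ⟨γ, hγ, n₀, h⟩ := partA.{0, 0} δ hδ
  refine ⟨γ, hγ, max n₀ 1, ?_⟩
  intro n hn F _
  have hn₀ : n₀ ≤ n := (le_max_left _ _).trans hn
  have hn1 : 1 ≤ n := (le_max_right _ _).trans hn
  refine ⟨?_, ?_, ?_⟩
  · intro A X _ _ _ _
    exact h n hn₀ F A X mul_comm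
  · intro Γ _ _ A hA hi hΓ a b ha hb f
    exact partC δ γ n F (fun A X _ _ _ _ => h n hn₀ F A X) Γ A hA hi hΓ a b ha hb f
  · intro k N hN a b ha hb hab hbb t
    exact partB δ γ hδ n hn1 F (fun A X _ _ _ _ => h n hn₀ F A X) k N hN a b ha hb hab hbb t

end MP0775d3.Old.AbelianPower
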