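import Pool.Agent.Lib.MP_0775d3_lc.Bf.Width

/-! Linear circuits of bounded depth and width `n ^ (1 + γ)` with arbitrary wiring whose layers
consist of disjoint arbitrary boxes of size at most `n ^ δ` compute no rigid matrices. -/

namespace MP0775d3.Old.BoxCircuits

open MP0775d3.Kron MP0775d3.Bf

theorem result (δ ε : ℝ) (hδ : 0 < δ) (hε : 0 < ε) (t : ℕ) : ∃ γ : ℝ, 0 < γ ∧ ∃ n₀ : ℕ,
    ∀ n : ℕ, n₀ ≤ n → ∀ m : ℕ, (m : ℝ) ≤ (n : ℝ) ^ (1 + γ) → ∀ (F : Type) [Field F],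
      (2 : F) ≠ 0 → ∀ M : Fin t → Matrix (Fin m) (Fin m) F,
      (∀ j, IsBlock ((n : ℝ) ^ δ) (M j)) →
      ∀ f g : Fin n → Fin m, Function.Injective f → Function.Injective g →
        Dec ((List.ofFn M).prod.submatrix f g) ((n : ℝ) ^ (1 - γ)) ((n : ℝ) ^ (δ + ε)) :=
  width δ ε hδ hε t

end MP0775d3.Old.BoxCircuits
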