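import Pool.Agent.Lib.MP_0775d3_lc.Kron.Mix

/-! Kronecker products of matrices of size at most `n ^ η`, more generally all composed matrices
`Φ (g₁ (x₁, y₁), ..., g_k (x_k, y_k))` with gadgets of size at most `n ^ η`, and bounded products
of such matrices with sparse matrices, are of small rank up to few changes per row and column. -/

namespace MP0775d3.Old.KroneckerComposed

open MP0775d3.Kron

theorem result {F : Type*} [Field F] (δ : ℝ) (N : ℕ) (hδ : 0 < δ) (hδ1 : δ ≤ 1)
    (hN : 260 ≤ δ * 2 ^ N) {X : Type*} [Fintype X] [DecidableEq X] (η s : ℝ) (hη : 0 < η)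
    (hs : 0 ≤ s) (m : ℕ) (W B : Fin m → Matrix X X F)
    (hW : ∀ j, Composed η (W j)) (hB : ∀ j, Sparse (B j) s) :
    ∃ R S : Matrix X X F, (List.ofFn fun j => W j * B j).prod = R + S ∧
      (R.rank : ℝ) ≤
        260 * m * Real.exp (-((δ / (520 * (N + 1))) ^ 2 / η)) * Fintype.card X ∧
      Sparse S ((s * (Fintype.card X : ℝ) ^ δ) ^ m) := by
  obtain ⟨R, S, h1, h2, h3⟩ := main hη δ N hδ hδ1 hN s hs m W B hW hB
  refine ⟨R, S, h1, h2.trans (le_of_eq ?_), h3⟩
  ring

end MP0775d3.Old.KroneckerComposed
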