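import Pool.Agent.Lib.MP_0775d3_lc.Cyclo
import Pool.Agent.Lib.MP_0775d3_lc.Dim
import Pool.Agent.Lib.MP_0775d3_lc.Rank

set_option autoImplicit false

namespace Pool.Agent.Lib.MP_0775d3_lc.Old.NearMaximal

open Finset Pool.Agent.Lib.MP_0775d3_lc

theorem result (n d r : ℕ) (hd : 2 ≤ d) (hr : r ≤ n)
    (q : Fin n × Fin n → ℕ) (hq : ∀ x, (q x).Prime) (hinj : Function.Injective q)
    (ζ : Fin n × Fin n → ℂ) (hζ : ∀ x, IsPrimitiveRoot (ζ x) (q x))
    (A : Matrix (Fin n) (Fin n) ℂ)
    (hA : ∀ i j, A i j ∈ IntermediateField.adjoin ℚ {ζ (i, j)})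
    (R S : Matrix (Fin n) (Fin n) ℂ) (hRS : A = R + S) (hR : R.rank ≤ r) :
    ((n : ℝ) - r) ^ 2 ≤
      ((Finset.univ.filter fun x : Fin n × Fin n => S x.1 x.2 ≠ 0).card : ℝ)
      + ((Finset.univ.filter fun x : Fin n × Fin n =>
          (minpoly ℚ (A x.1 x.2)).natDegree < d).card : ℝ)
      + 2 * (n : ℝ) ^ 2 / Real.log d := by
  classical
  obtain ⟨I, hIr, X, hX⟩ := exists_row_set R hR hr
  set t := (Finset.univ.filter fun x : Fin n × Fin n => S x.1 x.2 ≠ 0).card with ht
  set sm := (Finset.univ.filter fun x : Fin n × Fin n =>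
    (minpoly ℚ (A x.1 x.2)).natDegree < d).card with hsm
  let G := {x : Fin n × Fin n // S x.1 x.2 = 0 ∧ d ≤ (minpoly ℚ (A x.1 x.2)).natDegree}
  let P := {x : Fin n × Fin n // x.1 ∈ I} ⊕ {x : Fin n × Fin n // x.1 ∉ I ∧ x.2 ∈ I}
  let y : P → ℂ := Sum.elim (fun x => R x.1.1 x.1.2) (fun x => X x.1.1 x.1.2)
  let z : G → ℂ := fun g => A g.1.1 g.1.2
  set M := Fintype.card G with hM
  set p := Fintype.card P with hp
  -- cardinalities
  have hMcard : M = (Finset.univ.filter fun x : Fin n × Fin n =>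
        S x.1 x.2 = 0 ∧ d ≤ (minpoly ℚ (A x.1 x.2)).natDegree).card := by
    rw [hM]; exact Fintype.card_subtype _
  have hMle : M ≤ n ^ 2 := by
    rw [hMcard]
    calc _ ≤ (Finset.univ : Finset (Fin n × Fin n)).card := Finset.card_filter_le _ _
      _ = n ^ 2 := by simp [sq]
  have hsum : n ^ 2 ≤ M + t + sm := by
    have h1 : (Finset.univ : Finset (Fin n × Fin n)) ⊆
        ((Finset.univ.filter fun x : Fin n × Fin n =>
        S x.1 x.2 = 0 ∧ d ≤ (minpoly ℚ (A x.1 x.2)).natDegree) ∪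
        (Finset.univ.filter fun x : Fin n × Fin n => S x.1 x.2 ≠ 0)) ∪
        (Finset.univ.filter fun x : Fin n × Fin n =>
          (minpoly ℚ (A x.1 x.2)).natDegree < d) := by
      intro x _
      simp only [Finset.mem_union, Finset.mem_filter, Finset.mem_univ, true_and]
      by_cases h2 : S x.1 x.2 = 0
      · by_cases h3 : (minpoly ℚ (A x.1 x.2)).natDegree < d
        · right; exact h3
        · left; left; exact ⟨h2, by omega⟩
      · left; right; exact h2
    have h2 := Finset.card_le_card h1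
    have h3 : (Finset.univ : Finset (Fin n × Fin n)).card = n ^ 2 := by simp [sq]
    rw [h3] at h2
    refine h2.trans ((Finset.card_union_le _ _).trans ?_)
    rw [hMcard]
    exact Nat.add_le_add_right (Finset.card_union_le _ _) _
  have hpcard : p = r * n + (n - r) * r := by
    have h1 : Fintype.card {x : Fin n × Fin n // x.1 ∈ I} = r * n := by
      rw [Fintype.card_subtype]
      have : (Finset.univ.filter fun x : Fin n × Fin n => x.1 ∈ I) = I ×ˢ Finset.univ := by
        ext x; simp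
      rw [this, Finset.card_product, hIr]; simp
    have h2 : Fintype.card {x : Fin n × Fin n // x.1 ∉ I ∧ x.2 ∈ I} = (n - r) * r := by
      rw [Fintype.card_subtype]
      have : (Finset.univ.filter fun x : Fin n × Fin n => x.1 ∉ I ∧ x.2 ∈ I) = Iᶜ ×ˢ I := by
        ext x; simp
      rw [this, Finset.card_product, Finset.card_compl, hIr]; simp
    rw [hp, Fintype.card_sum, h1, h2]
  have hple : p ≤ n ^ 2 := by
    rw [hpcard]
    obtain ⟨k, rfl⟩ := Nat.exists_eq_add_of_le hr
    simp only [Nat.add_sub_cancel_left]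
    nlinarith
  have hpeq : (n : ℝ) ^ 2 - p = ((n : ℝ) - r) ^ 2 := by
    rw [hpcard]
    push_cast [Nat.cast_sub hr]
    ring
  -- membership
  have hz : ∀ g : G, (1 : ℂ) * z g ∈ paramSpan y ^ 2 := by
    rintro ⟨⟨u, v⟩, hS, hdq⟩
    have h1 : z ⟨⟨u, v⟩, hS, hdq⟩ = R u v := by
      show A u v = R u v
      simp only at hS
      rw [hRS, Matrix.add_apply, hS, add_zero]
    rw [one_mul, h1]
    by_cases hu : u ∈ I
    · have h2 : R u v ∈ paramSpan y ^ 1 := by
        rw [pow_one]
        exact param_mem_paramSpan y (Sum.inl ⟨(u, v), hu⟩)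
      exact paramSpan_pow_mono y (by norm_num) h2
    · rw [hX u v]
      apply Submodule.sum_mem
      intro k hk
      rw [pow_two]
      apply Submodule.mul_mem_mul
      · exact param_mem_paramSpan y (Sum.inr ⟨(u, k), hu, hk⟩)
      · exact param_mem_paramSpan y (Sum.inl ⟨(k, v), hk⟩)
  have h1mem : (1 : ℂ) ∈ paramSpan y ^ 2 := by
    have h := paramSpan_pow_mono y (show 0 ≤ 2 by norm_num)
    rw [pow_zero] at h
    exact h (Submodule.one_le.mp le_rfl)
  have hli : LinearIndependent ℚ (fun e : G → Fin d => ∏ g, z g ^ (e g : ℕ)) := by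
    refine mono_indep (fun g : G => q g.1) d (fun g => hq _) ?_ (fun g => ζ g.1)
      (fun g => hζ g.1) z (fun g => hA g.1.1 g.1.2) (fun g => g.2.2)
    intro a b hab
    exact Subtype.ext (hinj hab)
  have hcount := counting y z 1 one_ne_zero d 2 h1mem hz hli
  rw [← hM, ← hp] at hcount
  have hlogd : 0 < Real.log d := Real.log_pos (by exact_mod_cast hd)
  have htn : (0 : ℝ) ≤ t := Nat.cast_nonneg _
  have hsumR : (n : ℝ) ^ 2 ≤ M + t + sm := by exact_mod_cast hsum
  rcases Nat.eq_zero_or_pos p with hp0 | hppos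
  · rw [hp0, Nat.zero_add, Nat.choose_self] at hcount
    have hM0 : M = 0 := by
      by_contra hne
      have : 1 < d ^ M := Nat.one_lt_pow hne (by omega)
      omega
    rw [hM0] at hsumR
    have : (0 : ℝ) ≤ 2 * (n : ℝ) ^ 2 / Real.log d := by positivity
    rw [← hpeq, hp0]
    push_cast at hsumR ⊢
    linarith
  · have hpR : (0 : ℝ) < p := by exact_mod_cast hppos
    have hnpos : (0 : ℝ) < (n : ℝ) ^ 2 := by
      have : 0 < n ^ 2 := lt_of_lt_of_le hppos hple
      exact_mod_cast this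
    have hY : ((p + 2 * ((d - 1) * M) : ℕ) : ℝ) ≤ 2 * d * (n : ℝ) ^ 2 := by
      have h1 : p + 2 * ((d - 1) * M) ≤ 2 * d * n ^ 2 := by
        obtain ⟨d', rfl⟩ : ∃ d', d = d' + 1 := ⟨d - 1, by omega⟩
        simp only [Nat.add_sub_cancel]
        have : d' * M ≤ d' * n ^ 2 := Nat.mul_le_mul_left _ hMle
        nlinarith
      exact_mod_cast h1
    have hlog := log_bound (by omega) hppos _ hY hcount
    have hdpos : (0 : ℝ) < d := by positivity
    have hexp : Real.log (2 * d * (n : ℝ) ^ 2 / p) =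
        Real.log 2 + Real.log d + Real.log ((n : ℝ) ^ 2 / p) := by
      rw [mul_div_assoc, Real.log_mul (by positivity) (by positivity),
        Real.log_mul (by norm_num) (by positivity)]
    rw [hexp] at hlog
    have hl2 : Real.log 2 < 1 := by
      have := Real.log_two_lt_d9; linarith
    have hl2' : 0 < Real.log 2 := Real.log_pos (by norm_num)
    have hxlog : (p : ℝ) * Real.log ((n : ℝ) ^ 2 / p) ≤ (n : ℝ) ^ 2 - p := by
      have h1 := Real.log_le_sub_one_of_pos (show 0 < (n : ℝ) ^ 2 / p by positivity)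
      have h2 := mul_le_mul_of_nonneg_left h1 hpR.le
      calc _ ≤ _ := h2
        _ = (n : ℝ) ^ 2 - p := by field_simp
    have hpleR : (p : ℝ) ≤ (n : ℝ) ^ 2 := by exact_mod_cast hple
    have hfin : ((M : ℝ) - p) * Real.log d ≤ 2 * (n : ℝ) ^ 2 := by
      nlinarith
    have hfin2 : (M : ℝ) - p ≤ 2 * (n : ℝ) ^ 2 / Real.log d := by
      rwa [le_div_iff₀ hlogd]
    rw [← hpeq]
    linarith

end Pool.Agent.Lib.MP_0775d3_lc.Old.NearMaximal
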