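import Pool.Agent.Lib.MP_0775d3_lc.Sl2.Statement

/-! Let `G` be a homomorphic image of a group `N` with `SL₂(k) ≤ N ≤ GL₂(k)`, `k` a finite field, and
let `f` be a class function on `G` with real or complex values. Then the matrix `(f (x y⁻¹))` has
rank at most `n ^ (1 - γ)` up to `n ^ δ` changes in each row and each column, `n = |G|`. -/

namespace MP0775d3.Old.NonAbelian

open MP0775d3.Kron MP0775d3.Sl2

theorem result (δ : ℝ) (hδ : 0 < δ) : ∃ γ : ℝ, 0 < γ ∧ ∃ n₀ : ℕ,
    ∀ (G : Type) [Group G] [Fintype G], IsSL2Type G → n₀ ≤ Fintype.card G →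
    ∀ (F : Type) [RCLike F] (f : G → F), IsClassFun f →
      Dec (groupMat f) ((Fintype.card G : ℝ) ^ (1 - γ)) ((Fintype.card G : ℝ) ^ δ) :=
  main_statement δ hδ

end MP0775d3.Old.NonAbelian
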