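import Pool.Agent.Lib.MP_0775d3_lc.QuadU.Statement

/-! Let `Q` be a nondegenerate quadratic form on a space of dimension at least three over a finite
field of odd characteristic, and let `K` be a real or complex matrix on the points of the quadric
`{Q = c}` such that `K x y` is a function of `Q (x + y) - Q x - Q y`, except for `y = ± x`. Then `K`
has rank at most `n ^ (1 - γ)` up to `n ^ δ` changes in each row and each column. -/

namespace MP0775d3.Old.Quadric

open MP0775d3.Kron MP0775d3.QuadU

theorem result (δ : ℝ) (hδ : 0 < δ) : ∃ γ : ℝ, 0 < γ ∧ ∃ n₀ : ℕ,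
    ∀ (k : Type) [Field k] [Finite k], ringChar k ≠ 2 →
    ∀ (V : Type) [AddCommGroup V] [Module k V] (Q : QuadraticForm k V),
      3 ≤ Module.finrank k V → IsNondeg Q →
    ∀ (c : k) [Fintype (Pts Q c)], n₀ ≤ Fintype.card (Pts Q c) →
    ∀ (E : Type) [RCLike E] (K : Matrix (Pts Q c) (Pts Q c) E), IsPolarKernel Q c K →
      Dec K ((Fintype.card (Pts Q c) : ℝ) ^ (1 - γ)) ((Fintype.card (Pts Q c) : ℝ) ^ δ) :=
  main_statement δ hδ

end MP0775d3.Old.Quadric
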