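import Pool.Agent.Lib.MP_0775d3_lc.Sum.Main

/-! Which matrices `(f (a i + b j))`, with distinct `a i` and distinct `b j` in an abelian group
whose finite subgroups need few generators, can be rigid: exactly those whose sumsets stay large
after deleting a small proportion of the rows and columns. -/

namespace Pool.Agent.Lib.MP_0775d3_lc.Old.SumMatrices

open MP0775d3.Kron MP0775d3.Sum Filter

theorem result :
    (∀ δ : ℝ, 0 < δ → ∃ γ : ℝ, 0 < γ ∧ ∃ n₀ : ℕ, ∀ n : ℕ, n₀ ≤ n →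
      ∀ (G : Type) [AddCommGroup G] (t : ℕ), FinSubgroupsGen G t → (2 : ℝ) ^ t ≤ (n : ℝ) ^ γ →
      ∀ (a b : Fin n → G), Function.Injective a → Function.Injective b →
      ∀ I J : Finset (Fin n), (numSums a b I J : ℝ) ≤ (n : ℝ) ^ (1 + γ) →
      ∀ (F : Type) [Field F] (f : G → F),
      Dec (sumMatrix f a b) (((n : ℝ) - I.card) + ((n : ℝ) - J.card) + (n : ℝ) ^ (1 - γ))
        ((n : ℝ) ^ δ)) ∧
    (∀ (n : ℕ) (G : Type) [AddCommGroup G] (t : ℕ), FinSubgroupsGen G t →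
      ∀ (a b : Fin n → G), Function.Injective a → Function.Injective b → ∀ r s : ℝ,
      (∀ I J : Finset (Fin n), (n : ℝ) - 4 ^ t * r ≤ I.card → (n : ℝ) - 4 ^ t * r ≤ J.card →
        s < numSums a b I J) →
      (∀ (F : Type) [Field F] [CharZero F] (f : G → F),
        AlgebraicIndependent ℚ (fun x : {g : G | ∃ i j, a i + b j = g} => f x) →
        Rigid (sumMatrix f a b) r s) ∧
      ∃ f : G → ℤ, Rigid (sumMatrix (fun g => (f g : ℂ)) a b) r s) ∧
    (∀ (G : ℕ → Type) [∀ n, AddCommGroup (G n)] (t : ℕ), (∀ n, FinSubgroupsGen (G n) t) →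
      ∀ (a b : ∀ n, Fin n → G n), (∀ n, Function.Injective (a n)) →
      (∀ n, Function.Injective (b n)) →
      List.TFAE [
        ∃ f : ∀ n, G n → ℤ, ∃ ε > (0 : ℝ), ∃ δ > (0 : ℝ), ∀ᶠ n : ℕ in atTop,
          Rigid (sumMatrix (fun g => (f n g : ℂ)) (a n) (b n)) (ε * n) ((n : ℝ) ^ (1 + δ)),
        ∃ ε > (0 : ℝ), ∃ δ > (0 : ℝ), ∀ᶠ n : ℕ in atTop,
          ∃ (F : Type) (_ : Field F) (f : G n → F),
            ¬ Dec (sumMatrix f (a n) (b n)) (ε * n) ((n : ℝ) ^ δ),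
        ∃ ε > (0 : ℝ), ∃ δ > (0 : ℝ), ∀ᶠ n : ℕ in atTop, ∀ I J : Finset (Fin n),
          (1 - ε) * n ≤ I.card → (1 - ε) * n ≤ J.card →
          (n : ℝ) ^ (1 + δ) ≤ numSums (a n) (b n) I J]) := by
  refine ⟨fun δ hδ => upper'.{0, 0} δ hδ, ?_, ?_⟩
  · intro n G _ t hG a b ha hb r s hrs
    exact lower_both hG a b ha hb r s hrs
  · intro G _ t hG a b ha hb
    exact characterisation G t hG a b ha hb

end Pool.Agent.Lib.MP_0775d3_lc.Old.SumMatrices
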